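import Mathlib
import Pool.Agent.H656.DFSF.Main

set_option autoImplicit false

/-!
MP_a22eb7_al, Q1 in characteristic zero: a monoid algebra over a field of characteristic zero that
is directly finite is stably finite. More precisely, if the monoid algebra of `M` over some field
(of any characteristic) is directly finite, then all matrix rings over the monoid algebra of `M`
over every field of characteristic zero are directly finite.
-/

namespace Pool.Agent.Results.MP_a22eb7_al.CharZero

universe u v w

/-- Let `M` be a monoid, `K` a field of characteristic `0` and `F` any field (for example `F = K`).
If `F[M]` is directly finite, then `K[M]` is stably finite. -/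
theorem result (M : Type u) [Monoid M] (K : Type v) [Field K] [CharZero K]
    (F : Type w) [Field F]
    (hF : ∀ a b : MonoidAlgebra F M, a * b = 1 → b * a = 1)
    (n : ℕ) (A B : Matrix (Fin n) (Fin n) (MonoidAlgebra K M)) (hAB : A * B = 1) :
    B * A = 1 :=
  Pool.Agent.H656.DFSF.stably_finite_charZero (Pool.Agent.H656.DFSF.star_of_df hF) A B hAB

end Pool.Agent.Results.MP_a22eb7_al.CharZero
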