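import Mathlib
import Pool.Agent.H656.DFSF.Fin

set_option autoImplicit false

/-!
MP_a22eb7_al, Q1 in positive characteristic, for monoids whose maximal subgroups are residually
finite, locally finite or commutative, or satisfy a finiteness condition.
-/

namespace Pool.Agent.Results.MP_a22eb7_al.PosChar

open Pool.Agent.H656.DFSF

universe u v w

/-- Let `M` be a monoid such that `F[M]` is directly finite for some field `F`, and let `K` be a
field of characteristic `p > 0`. Assume that for every idempotent `f` of `M` the maximal subgroup
`H_f` at `f` is residually finite, or locally finite, or commutative, or that `K[H_f]` is stably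
finite and the `L`-class of `f` meets only finitely many `R`-classes. Then `K[M]` is stably
finite. -/
theorem result (M : Type u) [Monoid M] (K : Type v) [Field K] (p : ℕ) [Fact p.Prime] [CharP K p]
    (F : Type w) [Field F]
    (hF : ∀ a b : MonoidAlgebra F M, a * b = 1 → b * a = 1)
    (hM : ∀ (f : M) [Idp f],
      Group.ResiduallyFinite (HG f) ∨
      (∀ H0 : Subgroup (HG f), H0.FG → Finite H0) ∨
      (∀ a b : HG f, a * b = b * a) ∨
      ((∀ (n : ℕ) (A B : Matrix (Fin n) (Fin n) (MonoidAlgebra K (HG f))),
          A * B = 1 → B * A = 1) ∧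
        {I : Set M | ∃ x, LC f x ∧ I = rI x}.Finite))
    (n : ℕ) (A B : Matrix (Fin n) (Fin n) (MonoidAlgebra K M)) (hAB : A * B = 1) :
    B * A = 1 := by
  refine stably_finite_general (star_of_df hF) (K := K) ?_ n A B hAB
  intro f _
  rcases hM f with h | h | h | ⟨h1, h2⟩
  · exact Or.inl (conjRF_of_residuallyFinite h)
  · exact Or.inl (conjRF_of_locallyFinite h)
  · exact Or.inl (conjRF_of_comm h)
  · exact Or.inr ⟨h2, h1⟩

end Pool.Agent.Results.MP_a22eb7_al.PosChar
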